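import Pool.Agent.H190R3.WeiSucc

/-!
Chains in the Weihrauch degrees (MP_d0967d_lc).

`Problem` is the type of multi-valued functions on Baire space (`sol x` is the set of solutions of
the instance `x`, the domain consists of the instances having a solution), preordered by Weihrauch
reducibility; the functionals are the ones induced by computable monotone word functions.
`Degree` is the associated partial order of Weihrauch degrees.
-/

namespace Pool.Agent.Results.MP_d0967d_lc.ChainsOfDegrees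

open Set Cardinal Pool.Agent.H190R3.Wei

/-- Chains in the Weihrauch degrees versus chains in the power set of Baire space. -/
theorem result :
    -- Weihrauch reducibility, spelled out
    (∀ f g : Problem, f ≤ g ↔ ∃ φ ψ : List ℕ → List ℕ, IsMachine φ ∧ IsMachine ψ ∧
      ∀ x, (f.sol x).Nonempty → ∃ y, Maps φ x y ∧ (g.sol y).Nonempty ∧
        ∀ z ∈ g.sol y, ∃ w ∈ f.sol x, Maps ψ (pair x z) w) ∧
    -- (1) every lower cone of the Weihrauch degrees embeds into the power set of Baire space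
    (∀ d : Degree, ∃ E : {a : Degree // a ≤ d} → Set (ℕ → ℕ), ∀ a b, a ≤ b ↔ E a ⊆ E b) ∧
    -- (2) the power set of Baire space embeds into the Weihrauch degrees
    (∃ F : Set (ℕ → ℕ) → Degree, ∀ A B, A ⊆ B ↔ F A ≤ F B) ∧
    -- (3) chains of size `κ`, where the cofinality of `κ` exceeds the successor of the continuum
    (∀ κ : Cardinal.{0}, Order.succ 𝔠 < κ.ord.cof →
      ((∃ C : Set Degree, IsChain (· ≤ ·) C ∧ #C = κ) ↔
        ∃ S : Set (Set (ℕ → ℕ)), IsChain (· ⊆ ·) S ∧ #S = κ)) ∧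
    -- (4) chains of size the successor of the continuum, and chains of size `2 ^ 𝔠` if `2 ^ ν ≤ 𝔠`
    -- for all `ν < 𝔠`
    (∃ C : Set Degree, IsChain (· ≤ ·) C ∧ #C = Order.succ 𝔠) ∧
    ((∀ ν < (𝔠 : Cardinal.{0}), (2 : Cardinal.{0}) ^ ν ≤ 𝔠) →
      ∃ C : Set Degree, IsChain (· ≤ ·) C ∧ #C = 2 ^ 𝔠) ∧
    -- (5) chains of size `2 ^ 𝔠`
    (((2 ^ 𝔠 : Cardinal.{0}).ord.cof = Order.succ 𝔠 → (2 ^ 𝔠 : Cardinal.{0}) = Order.succ 𝔠) →
      ((∃ C : Set Degree, IsChain (· ≤ ·) C ∧ #C = 2 ^ 𝔠) ↔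
        ∃ S : Set (Set (ℕ → ℕ)), IsChain (· ⊆ ·) S ∧ #S = 2 ^ 𝔠) ∧
      ((¬ ∃ S : Set (Set (ℕ → ℕ)), IsChain (· ⊆ ·) S ∧ #S = 2 ^ 𝔠) →
        (∀ C : Set Degree, IsChain (· ≤ ·) C → #C < 2 ^ 𝔠) ∧
        ∃ C : Set Degree, IsMaxChain (· ≤ ·) C ∧ #C < 2 ^ 𝔠)) := by
  refine ⟨fun f g => Iff.rfl, ?_, ?_, ?_, ?_, ?_, ?_⟩
  · intro d
    obtain ⟨E, h1, h2⟩ := degree_cone_embeds d
    exact ⟨fun a => E a.1, fun a b => ⟨fun h => h1 _ _ h, fun h => h2 _ _ b.2 h⟩⟩
  · obtain ⟨F, hF⟩ := powerset_embeds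
    refine ⟨fun A => toAntisymmetrization (· ≤ ·) (F A), fun A B => ?_⟩
    rw [toAntisymmetrization_le_toAntisymmetrization_iff, hF A B]
  · intro κ hκ
    exact ⟨powersetChain_of_degreeChain hκ, degreeChain_of_powersetChain⟩
  · exact degreeChain_of_powersetChain powersetChain_succ
  · exact fun h => degreeChain_of_powersetChain (powersetChain_two_power h)
  · intro hcof
    have hiff : DegreeChain (2 ^ 𝔠) ↔ PowersetChain (2 ^ 𝔠) := by
      refine ⟨fun h => ?_, degreeChain_of_powersetChain⟩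
      have hlt : 𝔠 < (2 ^ 𝔠 : Cardinal.{0}).ord.cof :=
        Cardinal.lt_cof_ord_power Cardinal.aleph0_le_continuum Cardinal.one_lt_two
      rcases (Order.succ_le_of_lt hlt).lt_or_eq with h1 | h1
      · exact powersetChain_of_degreeChain h1 h
      · rw [hcof h1.symm]; exact powersetChain_succ
    refine ⟨hiff, fun hno => ?_⟩
    have hcard : #Degree ≤ 2 ^ 𝔠 := by
      have h1 : #Degree ≤ #Problem := Cardinal.mk_le_of_surjective
        (f := toAntisymmetrization (· ≤ ·)) (by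
          intro d; exact ⟨ofAntisymmetrization (· ≤ ·) d, by simp⟩)
      have h2 : #Problem ≤ #((ℕ → ℕ) → Set (ℕ → ℕ)) :=
        Cardinal.mk_le_of_injective (f := Problem.sol) (fun f g h => Problem.ext h)
      have h3 : #((ℕ → ℕ) → Set (ℕ → ℕ)) = 2 ^ 𝔠 := by
        rw [← Cardinal.power_def, Cardinal.mk_set, mk_baire, ← Cardinal.power_mul,
          Cardinal.mul_eq_self Cardinal.aleph0_le_continuum]
      exact (h1.trans h2).trans h3.le
    have hall : ∀ C : Set Degree, IsChain (· ≤ ·) C → #C < 2 ^ 𝔠 := by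
      intro C hC
      refine lt_of_le_of_ne ((Cardinal.mk_set_le C).trans hcard) fun h => hno ?_
      exact hiff.1 ⟨C, hC, h⟩
    exact ⟨hall, maxChain (· ≤ ·), maxChain_spec, hall _ maxChain_spec.isChain⟩

end Pool.Agent.Results.MP_d0967d_lc.ChainsOfDegrees
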